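import Mathlib
import Pool.Agent.R591.PF.Main

set_option autoImplicit false

open Set Ordinal Order Cardinal

namespace Pool.Agent.Results.MP_913d7c_lc.LadderUniformization

open Pool.Agent.R591.PF

/-- Let `Ω` be a set enumerated in type `ω₁` by `e`, and let `PFin Ω` be `P(Ω)/Fin`.

(1) For every automorphism `π` of `P(Ω)/Fin`, cardinality-preserving or not, the set of countable
limit ordinals `δ` whose initial segment is not fixed by `π` carries a uniformizable ladder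
system.

(2) If `2^ℵ₀ ≠ 2^ℵ₁`, then every automorphism of `P(Ω)/Fin` fixes the initial segments `δ` for
stationary many `δ < ω₁`.

(3) If some automorphism of `P(Ω)/Fin` has no nontrivial fixed point, then there is a
uniformizable ladder system on the set of all countable limit ordinals, and `2^ℵ₀ = 2^ℵ₁`.

(4) Some automorphism of `P(Ω)/Fin` has no nontrivial fixed point if and only if
`P(ℕ)/Fin` and `P(Ω)/Fin` are isomorphic or some cardinality-preserving automorphism of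
`P(Ω)/Fin` has no nontrivial fixed point. -/
theorem result (Ω : Type) (e : Ω ≃ Set.Iio (ω₁ : Ordinal.{0})) :
    (∀ π : PFin Ω ≃o PFin Ω, ∃ C : Ordinal.{0} → Set Ordinal.{0},
      (∀ δ ∈ Moved e π, IsLadder (C δ) δ) ∧ Unif (Moved e π) C) ∧
    ((2 : Cardinal.{0}) ^ ℵ₀ ≠ 2 ^ ℵ₁ → ∀ π : PFin Ω ≃o PFin Ω, ∀ D : Set Ordinal.{0},
      ClubSet D → ∃ δ ∈ D, π (cls (Seg e δ)) = cls (Seg e δ)) ∧
    ((∃ π : PFin Ω ≃o PFin Ω, NoFix π) →
      (∃ C : Ordinal.{0} → Set Ordinal.{0}, (∀ δ ∈ LimSet, IsLadder (C δ) δ) ∧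
        Unif LimSet C) ∧ (2 : Cardinal.{0}) ^ ℵ₀ = 2 ^ ℵ₁) ∧
    ((∃ π : PFin Ω ≃o PFin Ω, NoFix π) ↔
      Nonempty (PFin ℕ ≃o PFin Ω) ∨ ∃ π : PFin Ω ≃o PFin Ω, NoFix π ∧ CardPres π) := by
  refine ⟨ladder_moved e, ?_, ?_, katowice_iff Ω (mk_of_equiv e)⟩
  · intro hne π D hD
    by_contra hcon
    push Not at hcon
    obtain ⟨C, hC, hC2⟩ := ladder_moved e π
    have hsub : D ⊆ Moved e π := fun δ hδ => ⟨hD.1 hδ, hcon δ hδ⟩
    exact hne (two_pow_eq hD (fun δ hδ => hC δ (hsub hδ)) (hC2.mono hsub))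
  · rintro ⟨π, hπ⟩
    obtain ⟨C, hC, hC2⟩ := ladder_moved e π
    rw [moved_eq e hπ] at hC hC2
    exact ⟨⟨C, hC, hC2⟩, two_pow_eq clubSet_limSet hC hC2⟩

end Pool.Agent.Results.MP_913d7c_lc.LadderUniformization
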